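import Pool.Agent.Q270.CJ.Euclid

/-!
# The classes of numbers given by the Jacobi symbol and the length of the continued fraction
-/

set_option autoImplicit false

namespace Pool.Agent.Q270.CJ

open Finset

/-- The value of a finite continued fraction `c₁ + 1 / (c₂ + 1 / (⋯ + 1 / c_λ))`. -/
def cfVal : List ℕ → ℚ
  | [] => 0
  | [c] => c
  | c :: d :: l => c + 1 / cfVal (d :: l)

/-- `l = [c₁, …, c_λ]` is the list of the partial quotients of the expansion of `x`: the entries are
positive, the last one is greater than `1`, and the value is `x`. -/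
def IsExpansion (l : List ℕ) (x : ℚ) : Prop :=
  (∀ c ∈ l, 0 < c) ∧ (∃ c, l.getLast? = some c ∧ 1 < c) ∧ cfVal l = x

/-- The set `M_p` of the `0 < n < p` with `(n / p) = (-1) ^ λ(n)`. -/
def M (p : ℕ) : Set ℕ :=
  {n | 0 < n ∧ n < p ∧ ∃ l : List ℕ, IsExpansion l ((p : ℚ) / n) ∧
    jacobiSym n p = (-1) ^ l.length}

/-- The set of the `0 < n < p` with `(n / p) = (-1) ^ (λ(n) + 1)`. -/
def Mbar (p : ℕ) : Set ℕ :=
  {n | 0 < n ∧ n < p ∧ ∃ l : List ℕ, IsExpansion l ((p : ℚ) / n) ∧
    jacobiSym n p = (-1) ^ (l.length + 1)}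

/-- `N(p) = |M_p|`. -/
noncomputable def N (p : ℕ) : ℕ := (M p).ncard

/-- The number of the elements of `Mbar p`. -/
noncomputable def Nbar (p : ℕ) : ℕ := (Mbar p).ncard

lemma one_lt_cfVal : ∀ l : List ℕ, (∀ c ∈ l, 0 < c) → (∃ c, l.getLast? = some c ∧ 1 < c) →
    1 < cfVal l
  | [], _, ⟨c, hc, _⟩ => by simp at hc
  | [a], _, ⟨c, hc, hc'⟩ => by
    rw [List.getLast?_singleton, Option.some_inj] at hc
    subst hc
    rw [cfVal]
    exact_mod_cast hc'
  | a :: d :: l, h1, ⟨c, hc, hc'⟩ => by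
    rw [List.getLast?_cons_cons] at hc
    have ih := one_lt_cfVal (d :: l) (fun x hx => h1 x (List.mem_cons_of_mem _ hx)) ⟨c, hc, hc'⟩
    rw [cfVal]
    have h2 : (1 : ℚ) ≤ a := by exact_mod_cast h1 a List.mem_cons_self
    have h3 : 0 < 1 / cfVal (d :: l) := by
      apply one_div_pos.2
      linarith
    linarith

lemma length_eq : ∀ (l : List ℕ) (p n : ℕ), 0 < n → n < p → IsExpansion l ((p : ℚ) / n) →
    l.length = lam p n
  | [], p, n, _, _, ⟨_, ⟨c, hc, _⟩, _⟩ => by simp at hc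
  | [a], p, n, hn, hnp, ⟨_, _, h3⟩ => by
    rw [cfVal] at h3
    have hn0 : (n : ℚ) ≠ 0 := by exact_mod_cast hn.ne'
    rw [eq_div_iff hn0] at h3
    have h4 : a * n = p := by exact_mod_cast h3
    rw [lam_step p hn, ← h4, Nat.mul_mod_left, lam_zero]
    rfl
  | a :: d :: l, p, n, hn, hnp, ⟨h1, ⟨c, hc, hc'⟩, h3⟩ => by
    rw [List.getLast?_cons_cons] at hc
    have hpos : ∀ x ∈ d :: l, 0 < x := fun x hx => h1 x (List.mem_cons_of_mem _ hx)
    have hy := one_lt_cfVal (d :: l) hpos ⟨c, hc, hc'⟩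
    rw [cfVal] at h3
    set y := cfVal (d :: l) with hydef
    have hn0 : (0 : ℚ) < n := by exact_mod_cast hn
    have h4 : (p : ℚ) = a * n + n / y := by
      have := (eq_div_iff hn0.ne').1 h3
      rw [← this]
      ring
    have h5 : (n : ℚ) / y < n := by
      rw [div_lt_iff₀ (by linarith)]
      nlinarith
    have h6 : 0 < (n : ℚ) / y := by positivity
    have h7 : a * n < p := by
      have : (a : ℚ) * n < p := by linarith
      exact_mod_cast this
    have h8 : p < a * n + n := by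
      have : (p : ℚ) < a * n + n := by linarith
      exact_mod_cast this
    have h9 : p % n = p - a * n := by
      have e : p = (p - a * n) + a * n := by omega
      rw [e, Nat.add_mul_mod_self_right, Nat.mod_eq_of_lt (by omega)]
      omega
    have h10 : ((p % n : ℕ) : ℚ) = n / y := by
      rw [h9, Nat.cast_sub h7.le]
      push_cast
      linarith
    have h11 : y = (n : ℚ) / (p % n : ℕ) := by
      rw [h10]
      field_simp
    have ih := length_eq (d :: l) n (p % n) (by omega) (Nat.mod_lt _ hn)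
      ⟨hpos, ⟨c, hc, hc'⟩, h11⟩
    rw [lam_step p hn, ← ih]
    simp only [List.length_cons]
    ring

lemma exists_expansion : ∀ (n p : ℕ), 0 < n → n < p → ∃ l, IsExpansion l ((p : ℚ) / n) := by
  intro n
  induction n using Nat.strong_induction_on with
  | _ n ih =>
  intro p hn hnp
  have hn0 : (n : ℚ) ≠ 0 := by exact_mod_cast hn.ne'
  have hdm : n * (p / n) + p % n = p := Nat.div_add_mod p n
  have hc1 : 1 ≤ p / n := (Nat.one_le_div_iff hn).2 hnp.le
  rcases Nat.eq_zero_or_pos (p % n) with h | h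
  · refine ⟨[p / n], ?_, ⟨p / n, rfl, ?_⟩, ?_⟩
    · intro c hc
      rw [List.mem_singleton] at hc
      omega
    · by_contra hcon
      have h1 : p / n = 1 := by omega
      rw [h1, h] at hdm
      omega
    · rw [cfVal, eq_div_iff hn0]
      rw [h] at hdm
      have : p / n * n = p := by rw [mul_comm]; exact hdm
      exact_mod_cast this
  · obtain ⟨l, h1, ⟨c, hc, hc'⟩, h3⟩ := ih (p % n) (Nat.mod_lt _ hn) n h (Nat.mod_lt _ hn)
    match l, h1, hc, h3 with
    | [], _, hc, _ => simp at hc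
    | d :: l, h1, hc, h3 =>
      refine ⟨(p / n) :: d :: l, ?_, ⟨c, ?_, hc'⟩, ?_⟩
      · intro x hx
        rw [List.mem_cons] at hx
        rcases hx with hx | hx
        · omega
        · exact h1 x hx
      · rw [List.getLast?_cons_cons]
        exact hc
      · rw [cfVal, h3, one_div_div, eq_div_iff hn0, add_mul, div_mul_cancel₀ _ hn0]
        have : p / n * n + p % n = p := by rw [mul_comm]; exact hdm
        exact_mod_cast this

lemma mem_M {p n : ℕ} : n ∈ M p ↔ 0 < n ∧ n < p ∧ jacobiSym n p = (-1) ^ lam p n := by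
  constructor
  · rintro ⟨h1, h2, l, hl, h3⟩
    rw [length_eq l p n h1 h2 hl] at h3
    exact ⟨h1, h2, h3⟩
  · rintro ⟨h1, h2, h3⟩
    obtain ⟨l, hl⟩ := exists_expansion n p h1 h2
    refine ⟨h1, h2, l, hl, ?_⟩
    rw [length_eq l p n h1 h2 hl]
    exact h3

lemma mem_Mbar {p n : ℕ} :
    n ∈ Mbar p ↔ 0 < n ∧ n < p ∧ jacobiSym n p = (-1) ^ (lam p n + 1) := by
  constructor
  · rintro ⟨h1, h2, l, hl, h3⟩
    rw [length_eq l p n h1 h2 hl] at h3
    exact ⟨h1, h2, h3⟩
  · rintro ⟨h1, h2, h3⟩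
    obtain ⟨l, hl⟩ := exists_expansion n p h1 h2
    refine ⟨h1, h2, l, hl, ?_⟩
    rw [length_eq l p n h1 h2 hl]
    exact h3

lemma N_eq (p : ℕ) : (N p : ℤ) =
    ∑ n ∈ Icc 1 (p - 1), (if jacobiSym n p = (-1) ^ lam p n then 1 else 0) := by
  have h : M p = ((Icc 1 (p - 1)).filter (fun n => jacobiSym n p = (-1) ^ lam p n) : Finset ℕ) := by
    ext n
    rw [mem_M, coe_filter, Set.mem_ofPred_eq, mem_Icc]
    constructor
    · rintro ⟨h1, h2, h3⟩
      exact ⟨⟨by omega, by omega⟩, h3⟩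
    · rintro ⟨⟨h1, h2⟩, h3⟩
      exact ⟨by omega, by omega, h3⟩
  rw [N, h, Set.ncard_coe_finset, card_filter]
  push_cast
  rfl

lemma Nbar_eq (p : ℕ) : (Nbar p : ℤ) =
    ∑ n ∈ Icc 1 (p - 1), (if jacobiSym n p = (-1) ^ (lam p n + 1) then 1 else 0) := by
  have h : Mbar p =
      ((Icc 1 (p - 1)).filter (fun n => jacobiSym n p = (-1) ^ (lam p n + 1)) : Finset ℕ) := by
    ext n
    rw [mem_Mbar, coe_filter, Set.mem_ofPred_eq, mem_Icc]
    constructor
    · rintro ⟨h1, h2, h3⟩
      exact ⟨⟨by omega, by omega⟩, h3⟩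
    · rintro ⟨⟨h1, h2⟩, h3⟩
      exact ⟨by omega, by omega, h3⟩
  rw [Nbar, h, Set.ncard_coe_finset, card_filter]
  push_cast
  rfl

lemma N_sub (p : ℕ) : (N p : ℤ) - Nbar p = D p := by
  rw [N_eq, Nbar_eq, ← sum_sub_distrib, D]
  apply sum_congr rfl
  intro n _
  rw [pow_succ]
  have h1 := jacobiSym.trichotomy (n : ℤ) p
  rcases neg_one_pow_eq_or ℤ (lam p n) with h2 | h2 <;> rw [h2] <;>
    rcases h1 with h | h | h <;> rw [h] <;> norm_num

lemma N_add {p : ℕ} (hp : 1 < p) : (N p : ℤ) + Nbar p = Nat.totient p := by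
  rw [N_eq, Nbar_eq, ← sum_add_distrib]
  have h1 : ∀ n ∈ Icc 1 (p - 1), ((if jacobiSym n p = (-1) ^ lam p n then (1 : ℤ) else 0) +
      (if jacobiSym n p = (-1) ^ (lam p n + 1) then 1 else 0)) =
      if p.Coprime n then 1 else 0 := by
    intro n _
    rw [pow_succ]
    have : NeZero p := ⟨by omega⟩
    by_cases hc : p.Coprime n
    · rw [if_pos hc]
      have h0 : jacobiSym n p ≠ 0 := by
        intro h
        rw [jacobiSym.eq_zero_iff_not_coprime, Int.gcd_natCast_natCast] at h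
        exact h hc.symm
      have h1 := jacobiSym.trichotomy (n : ℤ) p
      rcases neg_one_pow_eq_or ℤ (lam p n) with h2 | h2 <;> rw [h2] <;>
        rcases h1 with h | h | h <;> first | exact absurd h h0 | (rw [h]; norm_num)
    · rw [if_neg hc]
      have h0 : jacobiSym n p = 0 := by
        rw [jacobiSym.eq_zero_iff_not_coprime, Int.gcd_natCast_natCast]
        exact fun h => hc (Nat.coprime_comm.1 h)
      rw [h0]
      rcases neg_one_pow_eq_or ℤ (lam p n) with h2 | h2 <;> rw [h2] <;> norm_num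
  rw [sum_congr rfl h1, Nat.totient_eq_card_coprime, card_filter]
  push_cast
  have h2 : range p = insert 0 (Icc 1 (p - 1)) := by
    ext x
    simp only [mem_range, mem_insert, mem_Icc]
    omega
  rw [h2, sum_insert (by simp), if_neg (by rw [Nat.coprime_zero_right]; omega), zero_add]

end Pool.Agent.Q270.CJ
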