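import Mathlib

/-!
# Lengths of continued fractions and the Jacobi symbol

For an odd `p`, the number of `0 < n < p` with `(n / p) = (-1) ^ (λ n + 1)` minus the number of those
with `(n / p) = (-1) ^ λ n` is `0` if `p ≡ 1 mod 4`, and `2 ∑_{n < p / 2} (n / p)` if `p ≡ 3 mod 4`.
-/

set_option autoImplicit false

namespace Pool.Agent.Q270.CJ

open Finset

/-- the number of divisions in the Euclidean algorithm -/
def lam : ℕ → ℕ → ℕ
  | p, n => if h : n = 0 then 0 else 1 + lam n (p % n)
termination_by _ n => n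
decreasing_by exact Nat.mod_lt _ (Nat.pos_of_ne_zero h)

lemma lam_zero (p : ℕ) : lam p 0 = 0 := by
  rw [lam]
  simp

lemma lam_step (p : ℕ) {n : ℕ} (hn : 0 < n) : lam p n = 1 + lam n (p % n) := by
  rw [lam]
  simp [hn.ne']

/-- the sign of the inverse of `n` modulo `p` gives the parity of the length -/
lemma sign_lam : ∀ (n p n' t : ℕ) (ε : ℤ), 0 < n → n < p → 0 < n' → 2 * n' ≤ p →
    (n : ℤ) * n' = p * t + ε → (ε = 1 ∨ ε = -1) → (p = 2 → t = 0) →
    ε = (-1) ^ (lam p n + 1) := by
  intro n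
  induction n using Nat.strong_induction_on with
  | _ n ih =>
  intro p n' t ε hn hnp hn' h2 hrel hε hp2
  have hdm := Nat.div_add_mod p n
  set c := p / n with hc
  set r := p % n with hr
  have hrn : r < n := Nat.mod_lt _ hn
  have hdm' : (n : ℤ) * c + r = p := by exact_mod_cast hdm
  rcases Nat.eq_zero_or_pos r with h0 | hrpos
  · -- `n` divides `p`
    have hn1 : n = 1 := by
      have hd : (n : ℤ) ∣ ε := by
        refine ⟨n' - c * t, ?_⟩
        rw [h0] at hdm'
        push_cast at hdm'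
        rw [← hdm'] at hrel
        linear_combination -hrel
      have : (n : ℤ) ∣ 1 := by
        rcases hε with h | h
        · rwa [h] at hd
        · rw [h] at hd
          exact (dvd_neg.1 hd)
      have h3 := Int.natCast_dvd_natCast.1 (by exact_mod_cast this : ((n : ℕ) : ℤ) ∣ ((1 : ℕ) : ℤ))
      exact Nat.dvd_one.1 h3
    rw [lam_step p hn, ← hr, h0, lam_zero]
    subst hn1
    rcases Nat.eq_zero_or_pos t with ht | ht
    · subst ht
      push_cast at hrel
      have h4 : (0 : ℤ) < n' := by exact_mod_cast hn'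
      rcases hε with h | h
      · rw [h]; norm_num
      · rw [h] at hrel
        linarith
    · exfalso
      have h4 : (p : ℤ) ≤ p * t := by
        have : (1 : ℤ) ≤ t := by exact_mod_cast ht
        nlinarith
      have h5 : (2 : ℤ) * n' ≤ p := by exact_mod_cast h2
      have h6 : (n' : ℤ) = p * t + ε := by
        push_cast at hrel
        linarith
      have h7 : (1 : ℤ) < p := by exact_mod_cast hnp
      have h8 : (p : ℤ) ≤ 2 := by
        rcases hε with h | h <;> rw [h] at h6 <;> linarith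
      have h9 : p = 2 := by
        have : p ≤ 2 := by exact_mod_cast h8
        omega
      have := hp2 h9
      omega
  · have hn1 : 2 ≤ n := by omega
    have hp3 : 3 ≤ p := by omega
    have hε1 : ε ≤ 1 := by rcases hε with h | h <;> rw [h]; norm_num
    have hε2 : -1 ≤ ε := by rcases hε with h | h <;> rw [h]; norm_num
    have ht : 0 < t := by
      rcases Nat.eq_zero_or_pos t with ht | ht
      · exfalso
        subst ht
        push_cast at hrel
        have h3 : (2 : ℤ) ≤ n := by exact_mod_cast hn1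
        have h4 : (1 : ℤ) ≤ n' := by exact_mod_cast hn'
        nlinarith
      · exact ht
    have ht2 : 2 * t ≤ n := by
      by_contra hcon
      have h3 : (n : ℤ) + 1 ≤ 2 * t := by
        have : n + 1 ≤ 2 * t := by omega
        exact_mod_cast this
      have h5 : (2 : ℤ) * n' ≤ p := by exact_mod_cast h2
      have h6 : (3 : ℤ) ≤ p := by exact_mod_cast hp3
      have h7 : (2 : ℤ) ≤ n := by exact_mod_cast hn1
      have h8 : (p : ℤ) * (n + 1) ≤ p * (2 * t) := by
        apply mul_le_mul_of_nonneg_left h3 (by linarith)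
      have h9 : (n : ℤ) * (2 * n') ≤ n * p := by
        apply mul_le_mul_of_nonneg_left h5 (by linarith)
      linarith
    have h10 : (n : ℤ) * (n' - c * t) = r * t + ε := by
      rw [← hdm'] at hrel
      linear_combination hrel
    have h11 : (c : ℤ) * t ≤ n' := by
      by_contra hcon
      have h12 : (n' : ℤ) - c * t ≤ -1 := by linarith [Int.lt_of_not_ge hcon]
      have h13 : (2 : ℤ) ≤ n := by exact_mod_cast hn1
      have h14 : (0 : ℤ) ≤ r * t := by positivity
      nlinarith
    obtain ⟨t1, ht1⟩ : ∃ t1 : ℕ, (t1 : ℤ) = n' - c * t :=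
      ⟨(n' - c * t : ℤ).toNat, Int.toNat_of_nonneg (by linarith)⟩
    rw [← ht1] at h10
    have key := ih r hrn n t t1 (-ε) hrpos hrn ht ht2 (by linear_combination -h10)
      (by rcases hε with h | h <;> rw [h] <;> norm_num) (by
        intro hn2
        have hr1 : r = 1 := by omega
        have ht1' : t = 1 := by omega
        rw [hn2, hr1, ht1'] at h10
        push_cast at h10
        rcases hε with h | h
        · exfalso
          rw [h, hn2, ht1'] at hrel
          push_cast at hrel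
          have h5 : (2 : ℤ) * n' ≤ p := by exact_mod_cast h2
          linarith
        · rw [h] at h10
          omega)
    rw [lam_step p hn, ← hr]
    rw [show 1 + lam n r + 1 = (lam n r + 1) + 1 by ring, pow_succ, ← key]
    ring

lemma lam_reflect {p n : ℕ} (hn : 0 < n) (h : 2 * n < p) : lam p (p - n) = 1 + lam p n := by
  rw [lam_step p (by omega : 0 < p - n)]
  have h1 : p % (p - n) = n := by
    have : p = (p - n) + n := by omega
    conv_lhs => rw [this]
    rw [show (p - n + n) - n = p - n by omega, Nat.add_mod_left]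
    exact Nat.mod_eq_of_lt (by omega)
  rw [h1, lam_step (p - n) hn, lam_step p hn]
  have h2 : (p - n) % n = p % n := by
    rw [Nat.mod_eq_sub_mod (by omega : n ≤ p)]
  rw [h2]

/-- the sum of the Jacobi symbols of the numbers below `p / 2` -/
def S (p : ℕ) : ℤ := ∑ n ∈ Icc 1 (p / 2), jacobiSym n p

/-- the signed count -/
def D (p : ℕ) : ℤ := ∑ n ∈ Icc 1 (p - 1), jacobiSym n p * (-1) ^ lam p n

/-- splitting a sum over `1, …, p - 1` at `p / 2` -/
lemma sum_halves {p : ℕ} (hp : p % 2 = 1) (f : ℕ → ℤ) :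
    ∑ n ∈ Icc 1 (p - 1), f n = ∑ n ∈ Icc 1 (p / 2), (f n + f (p - n)) := by
  rw [sum_add_distrib]
  have h1 : Icc 1 (p - 1) = Icc 1 (p / 2) ∪ Icc (p / 2 + 1) (p - 1) := by
    ext x
    simp only [mem_Icc, mem_union]
    omega
  have h2 : Disjoint (Icc 1 (p / 2)) (Icc (p / 2 + 1) (p - 1)) := by
    rw [disjoint_left]
    intro x
    simp only [mem_Icc]
    omega
  rw [h1, sum_union h2]
  congr 1
  refine sum_nbij' (fun x => p - x) (fun x => p - x) ?_ ?_ ?_ ?_ ?_
  · intro x hx
    rw [mem_Icc] at hx ⊢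
    omega
  · intro x hx
    rw [mem_Icc] at hx ⊢
    omega
  · intro x hx
    rw [mem_Icc] at hx
    omega
  · intro x hx
    rw [mem_Icc] at hx
    omega
  · intro x hx
    rw [mem_Icc] at hx
    congr 1
    omega

lemma jac_reflect {p n : ℕ} (hn : n ≤ p) : jacobiSym ((p - n : ℕ) : ℤ) p = jacobiSym (-1) p * jacobiSym n p := by
  rw [← jacobiSym.mul_left]
  rw [jacobiSym.mod_left, jacobiSym.mod_left (-1 * (n : ℤ))]
  congr 1
  push_cast [hn]
  rw [show (p : ℤ) - n = -1 * n + p by ring, Int.add_emod_right]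

lemma jac_neg_one_of_one {p : ℕ} (hp : p % 4 = 1) : jacobiSym (-1) p = 1 := by
  rw [jacobiSym.at_neg_one (by rw [Nat.odd_iff]; omega)]
  exact ZMod.χ₄_nat_one_mod_four hp

lemma jac_neg_one_of_three {p : ℕ} (hp : p % 4 = 3) : jacobiSym (-1) p = -1 := by
  rw [jacobiSym.at_neg_one (by rw [Nat.odd_iff]; omega)]
  exact ZMod.χ₄_nat_three_mod_four hp

lemma D_one {p : ℕ} (hp : p % 4 = 1) : D p = 0 := by
  unfold D
  rw [sum_halves (by omega)]
  apply sum_eq_zero
  intro n hn
  rw [mem_Icc] at hn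
  rw [jac_reflect (by omega), jac_neg_one_of_one hp, lam_reflect (by omega) (by omega)]
  ring

lemma D_three {p : ℕ} (hp : p % 4 = 3) :
    D p = 2 * ∑ n ∈ Icc 1 (p / 2), jacobiSym n p * (-1) ^ lam p n := by
  unfold D
  rw [sum_halves (by omega), mul_sum]
  apply sum_congr rfl
  intro n hn
  rw [mem_Icc] at hn
  rw [jac_reflect (by omega), jac_neg_one_of_three hp, lam_reflect (by omega) (by omega)]
  ring

/-- the involution: the inverse modulo `p` up to sign -/
def sig (p n : ℕ) : ℕ :=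
  if 2 * ((n : ZMod p)⁻¹).val ≤ p then ((n : ZMod p)⁻¹).val else p - ((n : ZMod p)⁻¹).val

lemma sig_spec {p n : ℕ} (hp : 1 < p) (hodd : p % 2 = 1) (hn : n.Coprime p) :
    1 ≤ sig p n ∧ sig p n ≤ p / 2 ∧ (sig p n).Coprime p ∧
      ∃ ε : ℤ, (ε = 1 ∨ ε = -1) ∧ ((sig p n : ℕ) : ZMod p) * n = (ε : ZMod p) := by
  have : NeZero p := ⟨by omega⟩
  have hmul : (n : ZMod p) * (n : ZMod p)⁻¹ = 1 := ZMod.coe_mul_inv_eq_one n hn
  set v := ((n : ZMod p)⁻¹).val with hv
  have hvp : v < p := ZMod.val_lt _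
  have hvc : ((v : ℕ) : ZMod p) = (n : ZMod p)⁻¹ := by simp [hv]
  have hu : IsUnit ((v : ℕ) : ZMod p) := by
    rw [hvc]
    exact IsUnit.of_mul_eq_one (n : ZMod p) (by rw [mul_comm]; exact hmul)
  have hvcop : v.Coprime p := (ZMod.isUnit_iff_coprime v p).1 hu
  have hv0 : 0 < v := by
    rcases Nat.eq_zero_or_pos v with h | h
    · rw [h, Nat.coprime_zero_left] at hvcop
      omega
    · exact h
  unfold sig
  rw [← hv]
  split_ifs with h
  · refine ⟨hv0, by omega, hvcop, 1, Or.inl rfl, ?_⟩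
    rw [hvc, mul_comm, hmul]
    simp
  · refine ⟨by omega, by omega, ?_, -1, Or.inr rfl, ?_⟩
    · exact (Nat.coprime_self_sub_left hvp.le).2 hvcop
    · rw [Nat.cast_sub hvp.le, hvc, ZMod.natCast_self, zero_sub, neg_mul, mul_comm, hmul]
      simp

lemma eq_of_small {p a b : ℕ} {ε : ℤ} (hodd : p % 2 = 1) (ha : 1 ≤ a) (ha' : a ≤ p / 2) (hb : 1 ≤ b)
    (hb' : b ≤ p / 2) (hε : ε = 1 ∨ ε = -1) (h : (a : ZMod p) = (ε : ZMod p) * b) : a = b := by
  have h1 : (((a : ℤ) - ε * b : ℤ) : ZMod p) = 0 := by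
    push_cast
    rw [h]
    ring
  rw [ZMod.intCast_zmod_eq_zero_iff_dvd] at h1
  rcases hε with h2 | h2
  · subst h2
    have h3 : (a : ℤ) - 1 * b = 0 := by
      apply Int.eq_zero_of_abs_lt_dvd h1
      rw [abs_lt]
      constructor <;> omega
    omega
  · subst h2
    exfalso
    have h3 : (a : ℤ) - (-1) * b = 0 := by
      apply Int.eq_zero_of_abs_lt_dvd h1
      rw [abs_lt]
      constructor <;> omega
    omega

lemma sig_sig {p n : ℕ} (hp : 1 < p) (hodd : p % 2 = 1) (hn : n.Coprime p) (h1 : 1 ≤ n)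
    (h2 : n ≤ p / 2) : sig p (sig p n) = n := by
  obtain ⟨a1, a2, a3, ε, hε, a4⟩ := sig_spec hp hodd hn
  obtain ⟨b1, b2, b3, δ, hδ, b4⟩ := sig_spec hp hodd a3
  -- `sig (sig n) * sig n = δ`, `sig n * n = ε`
  have hu : IsUnit ((sig p n : ℕ) : ZMod p) := (ZMod.isUnit_iff_coprime _ p).2 a3
  have hε2 : (ε : ZMod p) * ε = 1 := by
    rcases hε with h | h <;> rw [h] <;> simp
  refine eq_of_small (ε := δ * ε) hodd b1 b2 h1 h2 ?_ ?_
  · rcases hε with h | h <;> rcases hδ with h' | h' <;> rw [h, h'] <;> norm_num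
  · apply hu.mul_right_cancel
    rw [b4]
    push_cast
    calc (δ : ZMod p) = δ * (ε * ε) := by rw [hε2, mul_one]
      _ = δ * ε * ((sig p n : ℕ) * n) := by rw [a4]; ring
      _ = _ := by ring

lemma jac_sq {p n : ℕ} (hn : n.Coprime p) : jacobiSym n p * jacobiSym n p = 1 := by
  have h := jacobiSym.sq_one (a := (n : ℤ)) (b := p) (by
    rw [Int.gcd_natCast_natCast]; exact hn)
  rw [← sq]
  exact h

lemma term_eq {p n : ℕ} (hp : p % 4 = 3) (h1 : 1 ≤ n) (h2 : n ≤ p / 2) (hn : n.Coprime p) :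
    jacobiSym n p * (-1) ^ lam p n = - jacobiSym (sig p n) p := by
  have hp1 : 1 < p := by omega
  obtain ⟨a1, a2, a3, ε, hε, a4⟩ := sig_spec hp1 (by omega) hn
  -- the relation over the integers
  have h3 : (p : ℤ) ∣ (sig p n : ℤ) * n - ε := by
    rw [← ZMod.intCast_zmod_eq_zero_iff_dvd]
    push_cast
    rw [a4]
    ring
  obtain ⟨t, ht⟩ := h3
  have hε1 : ε ≤ 1 := by rcases hε with h | h <;> rw [h]; norm_num
  have hε2 : -1 ≤ ε := by rcases hε with h | h <;> rw [h]; norm_num
  have ht0 : 0 ≤ t := by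
    by_contra hcon
    have h4 : t ≤ -1 := by omega
    have h5 : (1 : ℤ) ≤ sig p n := by exact_mod_cast a1
    have h6 : (1 : ℤ) ≤ n := by exact_mod_cast h1
    have h7 : (3 : ℤ) ≤ p := by
      have : 3 ≤ p := by omega
      exact_mod_cast this
    nlinarith
  obtain ⟨t', rfl⟩ := Int.eq_ofNat_of_zero_le ht0
  have hs := sign_lam n p (sig p n) t' ε (by omega) (by omega) (by omega) (by omega)
    (by linear_combination ht) hε (by omega)
  -- the Jacobi symbols
  have h4 : jacobiSym (sig p n) p * jacobiSym n p = ε := by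
    rw [← jacobiSym.mul_left]
    have h5 : jacobiSym ((sig p n : ℤ) * n) p = jacobiSym ε p := by
      rw [jacobiSym.mod_left, jacobiSym.mod_left ε]
      congr 1
      rw [show (sig p n : ℤ) * n = ε + p * t' by linear_combination ht, Int.add_mul_emod_self_left]
    rw [h5]
    rcases hε with h | h
    · rw [h, jacobiSym.one_left]
    · rw [h, jac_neg_one_of_three hp]
  have h5 : (-1 : ℤ) ^ lam p n = - ε := by
    rw [pow_succ] at hs
    linear_combination hs
  rw [h5]
  have h6 := jac_sq hn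
  linear_combination jacobiSym n p * h4 - jacobiSym (sig p n) p * h6

/-- the sum over the lower half of the signed symbols -/
lemma sum_lower {p : ℕ} (hp : p % 4 = 3) :
    ∑ n ∈ Icc 1 (p / 2), jacobiSym n p * (-1) ^ lam p n = - S p := by
  have hp1 : 1 < p := by omega
  have h1 : ∀ f : ℕ → ℤ, (∀ n, ¬ n.Coprime p → f n = 0) →
      ∑ n ∈ Icc 1 (p / 2), f n = ∑ n ∈ (Icc 1 (p / 2)).filter (fun n => n.Coprime p), f n := by
    intro f hf
    rw [sum_filter]
    apply sum_congr rfl
    intro n _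
    split_ifs with h
    · rfl
    · exact hf n h
  have hz : ∀ n : ℕ, ¬ n.Coprime p → jacobiSym n p = 0 := by
    intro n hn
    have : NeZero p := ⟨by omega⟩
    rw [jacobiSym.eq_zero_iff_not_coprime, Int.gcd_natCast_natCast]
    exact hn
  unfold S
  rw [h1 _ (fun n hn => by rw [hz n hn, zero_mul]), h1 _ hz, ← sum_neg_distrib]
  refine sum_nbij' (sig p) (sig p) ?_ ?_ ?_ ?_ ?_
  · intro n hn
    rw [mem_filter, mem_Icc] at hn ⊢
    obtain ⟨a1, a2, a3, -⟩ := sig_spec hp1 (by omega) hn.2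
    exact ⟨⟨a1, a2⟩, a3⟩
  · intro n hn
    rw [mem_filter, mem_Icc] at hn ⊢
    obtain ⟨a1, a2, a3, -⟩ := sig_spec hp1 (by omega) hn.2
    exact ⟨⟨a1, a2⟩, a3⟩
  · intro n hn
    rw [mem_filter, mem_Icc] at hn
    exact sig_sig hp1 (by omega) hn.2 hn.1.1 hn.1.2
  · intro n hn
    rw [mem_filter, mem_Icc] at hn
    exact sig_sig hp1 (by omega) hn.2 hn.1.1 hn.1.2
  · intro n hn
    rw [mem_filter, mem_Icc] at hn
    exact term_eq hp hn.1.1 hn.1.2 hn.2

theorem D_eq {p : ℕ} (hp : p % 4 = 3) : D p = -2 * S p := by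
  rw [D_three hp, sum_lower hp]
  ring

end Pool.Agent.Q270.CJ
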