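import Pool.Agent.Q23.CN.Gs

/-!
# Gauss sums of Jacobi symbols of squarefree odd modulus
-/

set_option autoImplicit false
set_option linter.style.haveILetI false

namespace Pool.Agent.Q270.CJ

open Finset Complex
open scoped Real

/-- the sum `∑ (a / m) e(n a / m)` -/
noncomputable def T (m : ℕ) [NeZero m] (n : ℤ) : ℂ :=
  ∑ a : ZMod m, (jacobiSym a.val m : ℂ) * ZMod.stdAddChar (((n * a.val : ℤ)) : ZMod m)

/-- the sign factor -/
noncomputable def eps (m : ℕ) : ℂ := if m % 4 = 1 then 1 else I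

lemma sum_crt (m q : ℕ) [NeZero m] [NeZero q] (h : m.Coprime q) (F : ZMod (m * q) → ℂ) :
    ∑ a, F a = ∑ x : ZMod m, ∑ y : ZMod q, F ((x.val * q + y.val * m : ℕ) : ZMod (m * q)) := by
  rw [← Fintype.sum_prod_type' (fun (x : ZMod m) (y : ZMod q) =>
    F ((x.val * q + y.val * m : ℕ) : ZMod (m * q)))]
  symm
  apply Fintype.sum_bijective
    (fun xy : ZMod m × ZMod q => ((xy.1.val * q + xy.2.val * m : ℕ) : ZMod (m * q))) ?_ _ _
    (fun _ => rfl)
  rw [Fintype.bijective_iff_injective_and_card]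
  constructor
  · rintro ⟨x, y⟩ ⟨x', y'⟩ hxy
    simp only at hxy
    rw [ZMod.natCast_eq_natCast_iff] at hxy
    have h1 : x.val * q + y.val * m ≡ x'.val * q + y'.val * m [MOD m] :=
      hxy.of_dvd (Dvd.intro _ rfl)
    have h2 : x.val * q + y.val * m ≡ x'.val * q + y'.val * m [MOD q] :=
      hxy.of_dvd (Dvd.intro_left _ rfl)
    have h3 : x.val * q ≡ x'.val * q [MOD m] := by
      rw [Nat.ModEq, Nat.add_mul_mod_self_right, Nat.add_mul_mod_self_right] at h1
      exact h1
    have h4 : y.val * m ≡ y'.val * m [MOD q] := by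
      rw [Nat.ModEq, add_comm, Nat.add_mul_mod_self_right, add_comm,
        Nat.add_mul_mod_self_right] at h2
      exact h2
    have h5 : x.val ≡ x'.val [MOD m] := Nat.ModEq.cancel_right_of_coprime h h3
    have h6 : y.val ≡ y'.val [MOD q] := Nat.ModEq.cancel_right_of_coprime h.symm h4
    rw [← ZMod.natCast_eq_natCast_iff, ZMod.natCast_zmod_val, ZMod.natCast_zmod_val] at h5 h6
    rw [h5, h6]
  · rw [Fintype.card_prod, ZMod.card, ZMod.card, ZMod.card]

lemma T_mul (m q : ℕ) [NeZero m] [NeZero q] (h : m.Coprime q) (n : ℤ) :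
    haveI : NeZero (m * q) := ⟨mul_ne_zero (NeZero.ne m) (NeZero.ne q)⟩
    T (m * q) n = (jacobiSym q m * jacobiSym m q : ℤ) * (T m n * T q n) := by
  haveI : NeZero (m * q) := ⟨mul_ne_zero (NeZero.ne m) (NeZero.ne q)⟩
  have hm0 : (m : ℂ) ≠ 0 := by exact_mod_cast NeZero.ne m
  have hq0 : (q : ℂ) ≠ 0 := by exact_mod_cast NeZero.ne q
  unfold T
  rw [sum_crt m q h, Finset.sum_mul_sum, Finset.mul_sum]
  refine sum_congr rfl fun x _ => ?_
  rw [Finset.mul_sum]
  refine sum_congr rfl fun y _ => ?_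
  set N : ℕ := x.val * q + y.val * m with hN
  have hval : ((((N : ℕ) : ZMod (m * q)).val : ℕ) : ℤ) % ((m * q : ℕ) : ℤ)
      = (N : ℤ) % ((m * q : ℕ) : ℤ) := by
    rw [ZMod.val_natCast]
    push_cast
    rw [Int.emod_emod_of_dvd _ (dvd_refl _)]
  have hJ : jacobiSym (((N : ℕ) : ZMod (m * q)).val : ℕ) (m * q) = jacobiSym N (m * q) := by
    rw [jacobiSym.mod_left, hval, ← jacobiSym.mod_left]
  have hJ2 : jacobiSym (N : ℕ) (m * q) =
      (jacobiSym q m * jacobiSym m q) * (jacobiSym x.val m * jacobiSym y.val q) := by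
    rw [jacobiSym.mul_right]
    have e1 : jacobiSym (N : ℕ) m = jacobiSym ((x.val : ℤ) * q) m := by
      rw [jacobiSym.mod_left, jacobiSym.mod_left ((x.val : ℤ) * q)]
      congr 1
      rw [hN]
      push_cast
      rw [Int.add_mul_emod_self_right]
    have e2 : jacobiSym (N : ℕ) q = jacobiSym ((y.val : ℤ) * m) q := by
      rw [jacobiSym.mod_left, jacobiSym.mod_left ((y.val : ℤ) * m)]
      congr 1
      rw [hN]
      push_cast
      rw [add_comm, Int.add_mul_emod_self_right]
    rw [e1, e2, jacobiSym.mul_left, jacobiSym.mul_left]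
    ring
  have hE : (ZMod.stdAddChar (N := m * q)) (((n * (((N : ℕ) : ZMod (m * q)).val : ℕ) : ℤ)) : ZMod (m * q))
      = (ZMod.stdAddChar (N := m)) (((n * x.val : ℤ)) : ZMod m) *
        (ZMod.stdAddChar (N := q)) (((n * y.val : ℤ)) : ZMod q) := by
    have e3 : (((n * (((N : ℕ) : ZMod (m * q)).val : ℕ) : ℤ)) : ZMod (m * q))
        = ((n * (N : ℕ) : ℤ) : ZMod (m * q)) := by
      push_cast
      rw [ZMod.natCast_zmod_val]
    rw [e3, ZMod.stdAddChar_coe, ZMod.stdAddChar_coe, ZMod.stdAddChar_coe, ← Complex.exp_add]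
    congr 1
    rw [hN]
    push_cast
    field_simp
  rw [hJ, hJ2, hE]
  push_cast
  ring

lemma jac_val {q : ℕ} [Fact q.Prime] (a : ZMod q) :
    (jacobiSym a.val q : ℂ) = Pool.Agent.Helper184.Chapman.chi q ℂ a := by
  rw [Pool.Agent.Helper184.Chapman.chi_apply, ← jacobiSym.legendreSym.to_jacobiSym, legendreSym]
  simp

lemma T_prime (q : ℕ) [Fact q.Prime] (hq : q ≠ 2) (n : ℤ) :
    haveI : NeZero q := ⟨(Fact.out : q.Prime).ne_zero⟩
    T q n = (jacobiSym n q : ℂ) * (eps q * (Real.sqrt q : ℂ)) := by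
  haveI : NeZero q := ⟨(Fact.out : q.Prime).ne_zero⟩
  have hodd : q % 2 = 1 := (Nat.Prime.mod_two_eq_one_iff_ne_two (Fact.out)).2 hq
  have hg : gaussSum (Pool.Agent.Helper184.Chapman.chi q ℂ) (ZMod.stdAddChar (N := q))
      = eps q * (Real.sqrt q : ℂ) := by
    unfold eps
    split_ifs with h4
    · rw [Pool.Agent.Q23.CN.gauss_one h4, one_mul]
    · rw [Pool.Agent.Q23.CN.gauss_three (by omega), mul_comm]
  have h1 : T q n = gaussSum (Pool.Agent.Helper184.Chapman.chi q ℂ)
      (AddChar.mulShift (ZMod.stdAddChar (N := q)) (n : ZMod q)) := by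
    unfold T gaussSum
    refine sum_congr rfl fun a _ => ?_
    rw [jac_val, AddChar.mulShift_apply]
    congr 2
    push_cast
    rw [ZMod.natCast_zmod_val]
  have hJn : (jacobiSym n q : ℂ) = Pool.Agent.Helper184.Chapman.chi q ℂ (n : ZMod q) := by
    rw [Pool.Agent.Helper184.Chapman.chi_apply, ← jacobiSym.legendreSym.to_jacobiSym, legendreSym]
  rw [h1, hJn]
  by_cases hn : IsUnit (n : ZMod q)
  · obtain ⟨u, hu⟩ := hn
    have h2 := gaussSum_mulShift (Pool.Agent.Helper184.Chapman.chi q ℂ)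
      (ZMod.stdAddChar (N := q)) u
    rw [← hu, ← hg, ← h2, ← mul_assoc]
    have h3 : Pool.Agent.Helper184.Chapman.chi q ℂ (u : ZMod q) *
        Pool.Agent.Helper184.Chapman.chi q ℂ (u : ZMod q) = 1 := by
      rw [Pool.Agent.Helper184.Chapman.chi_apply, ← Int.cast_mul, ← sq,
        quadraticChar_sq_one u.ne_zero, Int.cast_one]
    rw [h3, one_mul]
  · have hn0 : (n : ZMod q) = 0 := by
      by_contra hne
      exact hn (isUnit_iff_ne_zero.2 hne)
    rw [hn0, MulChar.map_zero, zero_mul, AddChar.mulShift_zero, gaussSum_one_right]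
    intro h
    obtain ⟨a, ha⟩ := quadraticChar_exists_neg_one (F := ZMod q)
      (by rw [ZMod.ringChar_zmod_n]; exact hq)
    have h1 : Pool.Agent.Helper184.Chapman.chi q ℂ a = -1 := by
      rw [Pool.Agent.Helper184.Chapman.chi_apply, ha]; norm_num
    have ha0 : a ≠ 0 := by
      rintro rfl
      rw [quadraticChar_zero] at ha
      norm_num at ha
    rw [h, MulChar.one_apply (isUnit_iff_ne_zero.2 ha0)] at h1
    norm_num at h1

lemma T_one (n : ℤ) : T 1 n = 1 := by
  unfold T
  rw [Fintype.sum_unique]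
  simp

/-- the Gauss sum of the Jacobi symbol of a squarefree odd modulus -/
theorem T_eq (m : ℕ) : ∀ [NeZero m], Odd m → Squarefree m → ∀ n : ℤ,
    T m n = (jacobiSym n m : ℂ) * (eps m * (Real.sqrt m : ℂ)) := by
  induction m using Nat.strong_induction_on with
  | _ m ih =>
  intro hne hodd hsf n
  rcases Nat.lt_or_ge 1 m with h1 | h1
  · obtain ⟨q, hqp, k, hk⟩ : ∃ q : ℕ, q.Prime ∧ ∃ k, m = q * k :=
      ⟨m.minFac, Nat.minFac_prime (by omega), Nat.minFac_dvd m⟩
    have hk' : m = k * q := by rw [hk, mul_comm]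
    have hk0 : k ≠ 0 := by
      rintro rfl
      omega
    haveI : NeZero k := ⟨hk0⟩
    haveI : Fact q.Prime := ⟨hqp⟩
    haveI : NeZero q := ⟨hqp.ne_zero⟩
    have hcop : k.Coprime q := by
      rw [hk'] at hsf
      exact Nat.coprime_of_squarefree_mul hsf
    have hq2 : q ≠ 2 := by
      rintro h2
      rw [hk', h2] at hodd
      exact (Nat.not_odd_iff_even.2 (Even.mul_left even_two k)) hodd
    have hkodd : Odd k := by
      rw [hk'] at hodd
      exact (Nat.odd_mul.1 hodd).1
    have hqodd : Odd q := by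
      rw [hk'] at hodd
      exact (Nat.odd_mul.1 hodd).2
    have hksf : Squarefree k := by
      rw [hk'] at hsf
      exact Squarefree.of_mul_left hsf
    have hklt : k < m := by
      rw [hk']
      have := hqp.two_le
      have hk1 : 0 < k := Nat.pos_of_ne_zero hk0
      nlinarith
    subst hk'
    have e1 := T_mul k q hcop n
    have e2 := ih k hklt hkodd hksf n
    have e3 := T_prime q hq2 n
    rw [e1, e2, e3, jacobiSym.mul_right]
    have hrec := jacobiSym.quadratic_reciprocity (a := q) (b := k) hqodd hkodd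
    have hsq : (jacobiSym k q) * (jacobiSym k q) = 1 := by
      have := jacobiSym.sq_one (a := (k : ℤ)) (b := q) (by
        rw [Int.gcd_natCast_natCast]; exact hcop)
      rw [← sq]; exact this
    have hsgn : (jacobiSym q k * jacobiSym k q : ℤ) = (-1) ^ (q / 2 * (k / 2)) := by
      rw [hrec]
      linear_combination ((-1) ^ (q / 2 * (k / 2))) * hsq
    rw [hsgn]
    have hsqrt : (Real.sqrt ((k * q : ℕ) : ℝ) : ℂ) = (Real.sqrt k : ℂ) * (Real.sqrt q : ℂ) := by
      rw [← Complex.ofReal_mul]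
      congr 1
      push_cast
      rw [Real.sqrt_mul (by positivity)]
    rw [hsqrt]
    have heps : (((-1 : ℤ) ^ (q / 2 * (k / 2)) : ℤ) : ℂ) * (eps k * eps q) = eps (k * q) := by
      have hk4 : k % 4 = 1 ∨ k % 4 = 3 := by
        have := Nat.odd_iff.1 hkodd
        omega
      have hq4 : q % 4 = 1 ∨ q % 4 = 3 := by
        have := Nat.odd_iff.1 hqodd
        omega
      unfold eps
      rcases hk4 with h | h <;> rcases hq4 with h' | h'
      · have h5 : Even (q / 2 * (k / 2)) := Even.mul_left (by rw [Nat.even_iff]; omega) _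
        rw [h5.neg_one_pow, if_pos h, if_pos h', if_pos (by rw [Nat.mul_mod, h, h'])]
        norm_num
      · have h5 : Even (q / 2 * (k / 2)) := Even.mul_left (by rw [Nat.even_iff]; omega) _
        rw [h5.neg_one_pow, if_pos h, if_neg (by omega), if_neg (by rw [Nat.mul_mod, h, h']; omega)]
        norm_num
      · have h5 : Even (q / 2 * (k / 2)) := Even.mul_right (by rw [Nat.even_iff]; omega) _
        rw [h5.neg_one_pow, if_neg (by omega), if_pos h', if_neg (by rw [Nat.mul_mod, h, h']; omega)]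
        norm_num
      · have h5 : Odd (q / 2 * (k / 2)) :=
          Odd.mul (by rw [Nat.odd_iff]; omega) (by rw [Nat.odd_iff]; omega)
        rw [h5.neg_one_pow, if_neg (by omega), if_neg (by omega),
          if_pos (by rw [Nat.mul_mod, h, h'])]
        rw [I_mul_I]
        norm_num
    rw [← heps]
    push_cast
    ring
  · have hm1 : m = 1 := by
      have := NeZero.ne m
      omega
    subst hm1
    have e : T 1 n = 1 := T_one n
    rw [e]
    unfold eps
    simp

end Pool.Agent.Q270.CJ
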