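import Pool.Agent.Q270.CJ.Lval

/-!
# The sum of the Jacobi symbols below half of the modulus: sign and size
-/

set_option autoImplicit false
set_option linter.style.haveILetI false

namespace Pool.Agent.Q270.CJ

open Finset Complex
open scoped Real Topology

/-- `∑ a (a / m)` -/
def A (m : ℕ) : ℤ := ∑ a ∈ Icc 1 (m - 1), (a : ℤ) * jacobiSym a m

lemma A_first {m : ℕ} (h3 : m % 4 = 3) :
    A m = 2 * (∑ a ∈ Icc 1 (m / 2), (a : ℤ) * jacobiSym a m) - m * S m := by
  unfold A S
  rw [sum_halves (by omega) (fun a => (a : ℤ) * jacobiSym a m), mul_sum, mul_sum,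
    ← sum_sub_distrib]
  apply sum_congr rfl
  intro a ha
  rw [mem_Icc] at ha
  rw [jac_reflect (by omega), jac_neg_one_of_three h3]
  push_cast [show a ≤ m by omega]
  ring

/-- splitting a sum over `1, …, p - 1` by parity -/
lemma sum_parity {p : ℕ} (hp : p % 2 = 1) (f : ℕ → ℤ) :
    ∑ n ∈ Icc 1 (p - 1), f n = ∑ n ∈ Icc 1 (p / 2), (f (2 * n) + f (p - 2 * n)) := by
  rw [sum_add_distrib]
  have h1 : Icc 1 (p - 1) = (Icc 1 (p - 1)).filter (fun n => n % 2 = 0) ∪
      (Icc 1 (p - 1)).filter (fun n => ¬ n % 2 = 0) := by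
    rw [filter_union_filter_not_eq]
  have h2 : Disjoint ((Icc 1 (p - 1)).filter (fun n => n % 2 = 0))
      ((Icc 1 (p - 1)).filter (fun n => ¬ n % 2 = 0)) := disjoint_filter_filter_not _ _ _
  rw [h1, sum_union h2]
  congr 1
  · refine sum_nbij' (fun x => x / 2) (fun x => 2 * x) ?_ ?_ ?_ ?_ ?_
    · intro x hx
      rw [mem_filter, mem_Icc] at hx
      rw [mem_Icc]
      omega
    · intro x hx
      rw [mem_Icc] at hx
      rw [mem_filter, mem_Icc]
      omega
    · intro x hx
      rw [mem_filter, mem_Icc] at hx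
      omega
    · intro x hx
      omega
    · intro x hx
      rw [mem_filter, mem_Icc] at hx
      congr 1
      omega
  · refine sum_nbij' (fun x => (p - x) / 2) (fun x => p - 2 * x) ?_ ?_ ?_ ?_ ?_
    · intro x hx
      rw [mem_filter, mem_Icc] at hx
      rw [mem_Icc]
      omega
    · intro x hx
      rw [mem_Icc] at hx
      rw [mem_filter, mem_Icc]
      omega
    · intro x hx
      rw [mem_filter, mem_Icc] at hx
      omega
    · intro x hx
      rw [mem_Icc] at hx
      omega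
    · intro x hx
      rw [mem_filter, mem_Icc] at hx
      congr 1
      omega

lemma A_second {m : ℕ} (h3 : m % 4 = 3) :
    A m = jacobiSym 2 m * (4 * (∑ a ∈ Icc 1 (m / 2), (a : ℤ) * jacobiSym a m) - m * S m) := by
  unfold A S
  rw [sum_parity (by omega) (fun a => (a : ℤ) * jacobiSym a m), mul_sum, mul_sum,
    ← sum_sub_distrib, mul_sum]
  apply sum_congr rfl
  intro a ha
  rw [mem_Icc] at ha
  rw [jac_reflect (by omega), jac_neg_one_of_three h3]
  have h2 : jacobiSym ((2 * a : ℕ) : ℤ) m = jacobiSym 2 m * jacobiSym a m := by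
    push_cast
    rw [jacobiSym.mul_left]
  rw [h2]
  push_cast [show 2 * a ≤ m by omega]
  ring

/-- the classical relation -/
lemma mul_S {m : ℕ} (h3 : m % 4 = 3) : (m : ℤ) * S m = -(2 - jacobiSym 2 m) * A m := by
  have h1 := A_first h3
  have h2 := A_second h3
  have hsq : jacobiSym 2 m * jacobiSym 2 m = 1 := by
    have h := jac_sq (p := m) (n := 2) ((Nat.coprime_two_left).2 (by rw [Nat.odd_iff]; omega))
    exact_mod_cast h
  set B := ∑ a ∈ Icc 1 (m / 2), (a : ℤ) * jacobiSym a m with hB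
  have h4 : 2 * B = A m + m * S m := by linarith
  have h5 : A m = jacobiSym 2 m * (2 * A m + m * S m) := by
    rw [show 2 * A m + m * S m = 4 * B - m * S m by linarith]
    exact h2
  have h6 : jacobiSym 2 m * A m = 2 * A m + m * S m := by
    calc jacobiSym 2 m * A m = jacobiSym 2 m * (jacobiSym 2 m * (2 * A m + m * S m)) := by
          rw [← h5]
      _ = (jacobiSym 2 m * jacobiSym 2 m) * (2 * A m + m * S m) := by ring
      _ = _ := by rw [hsq, one_mul]
  linarith

lemma sum_val {m : ℕ} [NeZero m] (hm : 1 < m) :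
    ∑ j : ZMod m, jc m j * (j.val : ℂ) = ((A m : ℤ) : ℂ) := by
  have h1 : ∑ j : ZMod m, jc m j * (j.val : ℂ) = ∑ a ∈ range m, (jacobiSym a m : ℂ) * (a : ℂ) := by
    refine sum_nbij' (fun j => j.val) (fun a => (a : ZMod m)) ?_ ?_ ?_ ?_ ?_
    · intro j _
      exact mem_range.2 (ZMod.val_lt j)
    · intro a _
      exact mem_univ _
    · intro j _
      exact ZMod.natCast_zmod_val j
    · intro a ha
      exact ZMod.val_natCast_of_lt (mem_range.1 ha)
    · intro j _
      rfl
  rw [h1]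
  have h2 : range m = insert 0 (Icc 1 (m - 1)) := by
    ext x
    simp only [mem_range, mem_insert, mem_Icc]
    omega
  rw [h2, sum_insert (by simp)]
  unfold A
  push_cast
  rw [mul_zero, zero_add]
  apply sum_congr rfl
  intro a _
  ring

theorem A_nonpos {m : ℕ} (h3 : m % 4 = 3) (hsf : Squarefree m) : A m ≤ 0 := by
  haveI : NeZero m := ⟨by omega⟩
  have h1 := L_mul h3 hsf
  rw [sum_val (by omega)] at h1
  obtain ⟨x, hx, hx'⟩ := exists_of_NN (L_one_NN h3)
  rw [hx'] at h1
  have h2 : x * ((m : ℝ) * Real.sqrt m) = - π * (A m : ℝ) := by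
    have h3 := congrArg Complex.re h1
    have e1 : (x : ℂ) * ((m : ℂ) * (Real.sqrt m : ℂ)) = ((x * ((m : ℝ) * Real.sqrt m) : ℝ) : ℂ) := by
      push_cast; rfl
    have e2 : - (π : ℂ) * ((A m : ℤ) : ℂ) = ((- π * (A m : ℝ) : ℝ) : ℂ) := by
      push_cast; rfl
    rw [e1, e2, Complex.ofReal_re, Complex.ofReal_re] at h3
    exact h3
  have h4 : 0 ≤ x * ((m : ℝ) * Real.sqrt m) := by positivity
  rw [h2] at h4
  have h5 : (A m : ℝ) ≤ 0 := by
    by_contra hcon
    rw [not_le] at hcon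
    have := Real.pi_pos
    nlinarith
  exact_mod_cast h5

theorem S_nonneg_squarefree {m : ℕ} (h3 : m % 4 = 3) (hsf : Squarefree m) : 0 ≤ S m := by
  have h1 := mul_S h3
  have h2 := A_nonpos h3 hsf
  have h4 : 0 ≤ (m : ℤ) * S m := by
    rw [h1]
    have h5 : 0 ≤ 2 - jacobiSym 2 m := by
      rcases jac_cases 2 m with h | h | h <;> rw [h] <;> norm_num
    nlinarith
  have h6 : (0 : ℤ) < m := by
    have : 0 < m := by omega
    exact_mod_cast this
  by_contra hcon
  rw [not_le] at hcon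
  nlinarith

/-! ### reduction to squarefree moduli -/

lemma S_range {m : ℕ} (hm : 1 < m) : S m = ∑ n ∈ range (m / 2 + 1), jacobiSym n m := by
  unfold S
  have h2 : range (m / 2 + 1) = insert 0 (Icc 1 (m / 2)) := by
    ext x
    simp only [mem_range, mem_insert, mem_Icc]
    omega
  rw [h2, sum_insert (by simp)]
  have h0 : jacobiSym ((0 : ℕ) : ℤ) m = 0 := by
    rw [Nat.cast_zero]
    exact jacobiSym.zero_left hm
  rw [h0, zero_add]

lemma sum_period {m : ℕ} (h3 : m % 4 = 3) : ∑ n ∈ range m, jacobiSym n m = 0 := by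
  have h2 : range m = insert 0 (Icc 1 (m - 1)) := by
    ext x
    simp only [mem_range, mem_insert, mem_Icc]
    omega
  rw [h2, sum_insert (by simp)]
  have h0 : jacobiSym ((0 : ℕ) : ℤ) m = 0 := by
    rw [Nat.cast_zero]
    exact jacobiSym.zero_left (by omega)
  rw [h0, zero_add, sum_halves (by omega) (fun n => jacobiSym n m)]
  apply sum_eq_zero
  intro n hn
  rw [mem_Icc] at hn
  rw [jac_reflect (by omega), jac_neg_one_of_three h3]
  ring

lemma sum_add_period {m : ℕ} (h3 : m % 4 = 3) (y : ℕ) :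
    ∑ n ∈ range (m + y), jacobiSym n m = ∑ n ∈ range y, jacobiSym n m := by
  rw [sum_range_add, sum_period h3, zero_add]
  apply sum_congr rfl
  intro n _
  rw [jacobiSym.mod_left, jacobiSym.mod_left (n : ℤ)]
  congr 1
  push_cast
  rw [Int.add_emod_left]

lemma sum_add_periods {m : ℕ} (h3 : m % 4 = 3) (k y : ℕ) :
    ∑ n ∈ range (k * m + y), jacobiSym n m = ∑ n ∈ range y, jacobiSym n m := by
  induction k with
  | zero => simp
  | succ k ih =>
    rw [show (k + 1) * m + y = m + (k * m + y) by ring, sum_add_period h3, ih]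

lemma jac_mul_sq {m q : ℕ} (hm : m ≠ 0) (hq : q.Prime) (n : ℕ) :
    jacobiSym n (m * q ^ 2) = jacobiSym n m - (if q ∣ n then jacobiSym n m else 0) := by
  haveI : NeZero q := ⟨hq.ne_zero⟩
  rw [jacobiSym.mul_right' _ hm (pow_ne_zero 2 hq.ne_zero), jacobiSym.pow_right]
  split_ifs with h
  · have h1 : jacobiSym (n : ℤ) q = 0 := by
      rw [jacobiSym.eq_zero_iff_not_coprime, Int.gcd_natCast_natCast]
      intro h2
      exact hq.coprime_iff_not_dvd.1 (Nat.coprime_comm.1 h2) h
    rw [h1]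
    ring
  · have h1 : jacobiSym (n : ℤ) q ^ 2 = 1 := by
      rw [sq]
      exact jac_sq (Nat.coprime_comm.1 (hq.coprime_iff_not_dvd.2 h))
    rw [h1]
    ring

lemma sum_multiples (X q : ℕ) (hq : 0 < q) (g : ℕ → ℤ) :
    ∑ n ∈ range (X + 1), (if q ∣ n then g n else 0) = ∑ j ∈ range (X / q + 1), g (q * j) := by
  rw [← sum_filter]
  refine sum_nbij' (fun n => n / q) (fun j => q * j) ?_ ?_ ?_ ?_ ?_
  · intro n hn
    rw [mem_filter, mem_range] at hn
    rw [mem_range]
    have := Nat.div_le_div_right (c := q) (Nat.lt_succ_iff.1 hn.1)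
    omega
  · intro j hj
    rw [mem_range] at hj
    rw [mem_filter, mem_range]
    refine ⟨?_, Dvd.intro _ rfl⟩
    have h1 : j ≤ X / q := by omega
    have h2 : q * j ≤ X := by
      rw [mul_comm]
      exact (Nat.le_div_iff_mul_le hq).1 h1
    omega
  · intro n hn
    rw [mem_filter] at hn
    exact Nat.mul_div_cancel' hn.2
  · intro j _
    exact Nat.mul_div_cancel_left j hq
  · intro n hn
    rw [mem_filter] at hn
    congr 1
    exact (Nat.mul_div_cancel' hn.2).symm

lemma sq_mod_four {q : ℕ} (hq : q % 2 = 1) : q ^ 2 % 4 = 1 := by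
  obtain ⟨k, hk⟩ : ∃ k, q = 2 * k + 1 := ⟨q / 2, by omega⟩
  rw [hk, show (2 * k + 1) ^ 2 = 4 * (k * k + k) + 1 by ring]
  omega

lemma S_mul_sq {m q : ℕ} (h3 : m % 4 = 3) (hq : q.Prime) (hq2 : q % 2 = 1) :
    S (m * q ^ 2) = (1 - jacobiSym q m) * S m := by
  have hm0 : m ≠ 0 := by omega
  have hq0 : 0 < q := hq.pos
  have hqsq := sq_mod_four hq2
  have hM3 : (m * q ^ 2) % 4 = 3 := by
    rw [Nat.mul_mod, h3, hqsq]
  rw [S_range (by omega), S_range (m := m) (by omega)]
  rw [sum_congr rfl (fun n _ => jac_mul_sq hm0 hq n), sum_sub_distrib,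
    sum_multiples _ q hq0 (fun n => jacobiSym n m)]
  have h1 : m * q ^ 2 / 2 + 1 = (q ^ 2 / 2) * m + (m / 2 + 1) := by
    obtain ⟨k, hk⟩ : ∃ k, q ^ 2 = 2 * k + 1 := ⟨q ^ 2 / 2, by omega⟩
    rw [hk]
    have e : m * (2 * k + 1) = 2 * (k * m) + m := by ring
    rw [e, show (2 * k + 1) / 2 = k by omega]
    omega
  have h2 : m * q ^ 2 / 2 / q + 1 = (q / 2) * m + (m / 2 + 1) := by
    have e0 : m * q ^ 2 / 2 / q = m * q / 2 := by
      rw [Nat.div_div_eq_div_mul, show m * q ^ 2 = (m * q) * q by ring]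
      exact Nat.mul_div_mul_right _ _ hq0
    rw [e0]
    obtain ⟨k, hk⟩ : ∃ k, q = 2 * k + 1 := ⟨q / 2, by omega⟩
    rw [hk]
    have e : m * (2 * k + 1) = 2 * (k * m) + m := by ring
    rw [e, show (2 * k + 1) / 2 = k by omega]
    omega
  rw [h1, h2, sum_add_periods h3]
  have h4 : ∑ j ∈ range (q / 2 * m + (m / 2 + 1)), jacobiSym ((q * j : ℕ) : ℤ) m
      = jacobiSym q m * ∑ j ∈ range (m / 2 + 1), jacobiSym j m := by
    rw [← sum_add_periods h3 (q / 2) (m / 2 + 1), mul_sum]
    apply sum_congr rfl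
    intro j _
    push_cast
    rw [jacobiSym.mul_left]
  rw [h4]
  ring

/-- the reduction step as an induction principle -/
lemma induct {P : ℕ → Prop} (h1 : ∀ m, m % 4 = 3 → Squarefree m → P m)
    (h2 : ∀ m q, m % 4 = 3 → q.Prime → q % 2 = 1 → P m → P (m * q ^ 2)) (m : ℕ)
    (h3 : m % 4 = 3) : P m := by
  induction m using Nat.strong_induction_on with
  | _ m ih =>
  by_cases hsf : Squarefree m
  · exact h1 m h3 hsf
  · rw [Nat.squarefree_iff_prime_squarefree] at hsf
    push Not at hsf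
    obtain ⟨q, hq, k, hk⟩ := hsf
    have hqodd : q % 2 = 1 := by
      rcases hq.eq_two_or_odd with h | h
      · exfalso
        rw [h] at hk
        omega
      · exact h
    have hk' : m = k * q ^ 2 := by rw [hk]; ring
    have hqsq := sq_mod_four hqodd
    have hk3 : k % 4 = 3 := by
      rw [hk', Nat.mul_mod, hqsq, mul_one, Nat.mod_mod] at h3
      exact h3
    rw [hk']
    apply h2 k q hk3 hq hqodd
    apply ih k _ hk3
    rw [hk']
    have h4 : 4 ≤ q ^ 2 := by
      have := hq.two_le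
      nlinarith
    have h5 : 0 < k := by omega
    nlinarith

theorem S_nonneg {m : ℕ} (h3 : m % 4 = 3) : 0 ≤ S m := by
  refine induct (P := fun m => 0 ≤ S m) (fun m h hsf => S_nonneg_squarefree h hsf) ?_ m h3
  intro m q hm hq hq2 ih
  rw [S_mul_sq hm hq hq2]
  apply mul_nonneg _ ih
  rcases jac_cases q m with h | h | h <;> rw [h] <;> norm_num

/-! ### the size -/

lemma norm_eps (m : ℕ) : ‖eps m‖ = 1 := by
  unfold eps
  split_ifs <;> simp

lemma S_bound_squarefree {m : ℕ} (h3 : m % 4 = 3) (hsf : Squarefree m) :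
    |(S m : ℝ)| ≤ Real.sqrt m * (1 + Real.log m) := by
  have hm1 : 1 < m := by omega
  haveI : NeZero m := ⟨by omega⟩
  have hodd : Odd m := by rw [Nat.odd_iff]; omega
  set N := m / 2 with hN
  have h1 : ((S m : ℤ) : ℂ) * (eps m * (Real.sqrt m : ℂ)) = ∑ a ∈ Icc 1 N, T m a := by
    rw [S]
    push_cast
    rw [sum_mul]
    apply sum_congr rfl
    intro a _
    rw [T_eq m hodd hsf a]
  have h2 : ∑ a ∈ Icc 1 N, T m (a : ℕ) = ∑ b ∈ range m, (jacobiSym b m : ℂ) *
      ∑ a ∈ Icc 1 N, H343.ex (a * ((b : ℝ) / m)) := by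
    unfold T
    rw [sum_comm]
    have h4 : ∀ b : ZMod m, ∑ a ∈ Icc 1 N, (jacobiSym b.val m : ℂ) *
        ZMod.stdAddChar ((((a : ℕ) : ℤ) * b.val : ℤ) : ZMod m) = (jacobiSym b.val m : ℂ) *
      ∑ a ∈ Icc 1 N, H343.ex (a * ((b.val : ℝ) / m)) := by
      intro b
      rw [mul_sum]
      apply sum_congr rfl
      intro a _
      congr 1
      have h5 := H343.Gauss.ex_eq_stdAddChar m (a * b.val)
      rw [show (((((a : ℕ) : ℤ) * b.val : ℤ)) : ZMod m) = ((a * b.val : ℕ) : ZMod m) by push_cast; rfl,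
        ← h5]
      congr 1
      push_cast
      ring
    rw [sum_congr rfl (fun b _ => h4 b)]
    refine sum_nbij' (fun j => j.val) (fun a => (a : ZMod m)) ?_ ?_ ?_ ?_ ?_
    · intro j _
      exact mem_range.2 (ZMod.val_lt j)
    · intro a _
      exact mem_univ _
    · intro j _
      exact ZMod.natCast_zmod_val j
    · intro a ha
      exact ZMod.val_natCast_of_lt (mem_range.1 ha)
    · intro j _
      rfl
  have h6 : ‖∑ a ∈ Icc 1 N, T m (a : ℕ)‖ ≤ m * (1 + Real.log m) := by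
    rw [h2]
    have h7 : range m = insert 0 (Ico 1 m) := by
      ext x
      simp only [mem_range, mem_insert, mem_Ico]
      omega
    rw [h7, sum_insert (by simp)]
    have h0 : jacobiSym ((0 : ℕ) : ℤ) m = 0 := by
      rw [Nat.cast_zero]
      exact jacobiSym.zero_left hm1
    rw [h0, Int.cast_zero, zero_mul, zero_add]
    refine (norm_sum_le _ _).trans ?_
    have h5 : ∀ b ∈ Ico 1 m, ‖(jacobiSym b m : ℂ) * ∑ a ∈ Icc 1 N, H343.ex (a * ((b : ℝ) / m))‖ ≤
        (m : ℝ) / 2 * (1 / b + 1 / ((m - b : ℕ) : ℝ)) := by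
      intro b hb
      rw [mem_Ico] at hb
      rw [norm_mul]
      have h8 : ‖(jacobiSym b m : ℂ)‖ ≤ 1 := by
        rcases jac_cases b m with h | h | h <;> rw [h] <;> simp
      calc _ ≤ 1 * ‖∑ n ∈ Icc 1 N, H343.ex (n * ((b : ℝ) / m))‖ := by
            gcongr
        _ ≤ _ := by rw [one_mul]; exact H343.PVaux.geom_le N m b hb.1 hb.2
    refine (sum_le_sum h5).trans ?_
    rw [← mul_sum, sum_add_distrib, H343.PVaux.sum_reflect m (by omega)]
    have h7 := H343.PVaux.harmonic_le m (by omega)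
    have h8 : (0 : ℝ) ≤ m := by positivity
    nlinarith
  rw [← h1, norm_mul, norm_mul, norm_eps, one_mul] at h6
  have hm0 : (0 : ℝ) < m := by
    have : 0 < m := by omega
    exact_mod_cast this
  have hsq : 0 < Real.sqrt m := Real.sqrt_pos.mpr hm0
  have h9 : ‖((S m : ℤ) : ℂ)‖ = |(S m : ℝ)| := by
    rw [Complex.norm_intCast]
  have h10 : ‖((Real.sqrt m : ℝ) : ℂ)‖ = Real.sqrt m := by
    rw [Complex.norm_real, Real.norm_eq_abs, abs_of_nonneg hsq.le]
  rw [h9, h10] at h6
  have h11 : (m : ℝ) * (1 + Real.log m) = (Real.sqrt m * (1 + Real.log m)) * Real.sqrt m := by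
    have := Real.mul_self_sqrt hm0.le
    linear_combination (-(1 + Real.log m)) * this
  rw [h11] at h6
  exact le_of_mul_le_mul_right h6 hsq

theorem S_bound {m : ℕ} (h3 : m % 4 = 3) : |(S m : ℝ)| ≤ Real.sqrt m * (1 + Real.log m) := by
  refine induct (P := fun m => |(S m : ℝ)| ≤ Real.sqrt m * (1 + Real.log m))
    (fun m h hsf => S_bound_squarefree h hsf) ?_ m h3
  intro m q hm hq hq2 ih
  change |(S m : ℝ)| ≤ Real.sqrt m * (1 + Real.log m) at ih
  rw [S_mul_sq hm hq hq2]
  push_cast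
  rw [abs_mul]
  have h1 : |(1 - (jacobiSym q m : ℝ))| ≤ 2 := by
    rcases jac_cases q m with h | h | h <;> rw [h] <;> norm_num
  have hm0 : (0 : ℝ) < m := by
    have : 0 < m := by omega
    exact_mod_cast this
  have hq2' : (2 : ℝ) ≤ q := by exact_mod_cast hq.two_le
  have h4 : Real.sqrt ((m : ℝ) * q ^ 2) = q * Real.sqrt m := by
    rw [Real.sqrt_mul hm0.le, Real.sqrt_sq (by linarith)]
    ring
  have h5 : Real.log m ≤ Real.log ((m : ℝ) * q ^ 2) := by
    apply Real.log_le_log hm0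
    exact le_mul_of_one_le_right hm0.le (by nlinarith)
  have h6 : 0 ≤ Real.log m := Real.log_natCast_nonneg m
  rw [h4]
  have h7 := Real.sqrt_nonneg (m : ℝ)
  calc |(1 - (jacobiSym q m : ℝ))| * |(S m : ℝ)| ≤ 2 * (Real.sqrt m * (1 + Real.log m)) := by
        gcongr
    _ ≤ q * (Real.sqrt m * (1 + Real.log ((m : ℝ) * q ^ 2))) := by gcongr
    _ = _ := by ring

end Pool.Agent.Q270.CJ
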