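import Pool.Agent.Q270.CJ.Gauss
import Pool.Agent.Q270.CJ.Euclid
import Pool.Agent.H916R2.OddChar
import Pool.Agent.H343R2.PV

/-!
# The sum of the Jacobi symbols below half of the modulus
-/

set_option autoImplicit false
set_option linter.style.haveILetI false

namespace Pool.Agent.Q270.CJ

open Finset Complex HurwitzZeta
open scoped Real Topology

/-- the Jacobi symbol as a Dirichlet character -/
noncomputable def jc (m : ℕ) [NeZero m] : DirichletCharacter ℂ m where
  toFun a := (jacobiSym a.val m : ℂ)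
  map_one' := by
    have h : jacobiSym ((1 : ZMod m).val : ℤ) m = 1 := by
      have h1 := ZMod.val_one_eq_one_mod m
      rw [h1]
      push_cast
      rw [← jacobiSym.mod_left, jacobiSym.one_left]
    rw [h]
    simp
  map_mul' a b := by
    have h : jacobiSym ((a * b).val : ℤ) m = jacobiSym a.val m * jacobiSym b.val m := by
      rw [ZMod.val_mul]
      push_cast
      rw [← jacobiSym.mod_left, jacobiSym.mul_left]
    rw [h]
    push_cast
    rfl
  map_nonunit' a ha := by
    have h : jacobiSym (a.val : ℤ) m = 0 := by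
      rw [jacobiSym.eq_zero_iff_not_coprime, Int.gcd_natCast_natCast]
      intro h
      apply ha
      rw [← ZMod.natCast_zmod_val a]
      exact (ZMod.isUnit_iff_coprime _ _).2 h
    rw [h]
    simp

lemma jc_apply (m : ℕ) [NeZero m] (a : ZMod m) : jc m a = (jacobiSym a.val m : ℂ) := rfl

lemma jc_int (m : ℕ) [NeZero m] (n : ℤ) : jc m (n : ZMod m) = (jacobiSym n m : ℂ) := by
  rw [jc_apply, jacobiSym.mod_left n]
  congr 2
  exact ZMod.val_intCast n

lemma jc_nat (m : ℕ) [NeZero m] (n : ℕ) : jc m (n : ZMod m) = (jacobiSym n m : ℂ) := by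
  have := jc_int m (n : ℤ)
  rwa [Int.cast_natCast] at this

lemma jc_neg_one {m : ℕ} [NeZero m] (h3 : m % 4 = 3) : jc m (-1) = -1 := by
  have := jc_int m (-1)
  rw [jac_neg_one_of_three h3] at this
  simpa using this

lemma dft_jc {m : ℕ} [NeZero m] (hodd : Odd m) (hsf : Squarefree m) (k : ZMod m) :
    ZMod.dft (fun j => jc m j) k = jc m (-1) * (eps m * (Real.sqrt m : ℂ)) * jc m k := by
  have h := T_eq m hodd hsf (-(k.val : ℤ))
  have h1 : ((-(k.val : ℤ) : ℤ) : ZMod m) = -k := by
    push_cast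
    rw [ZMod.natCast_zmod_val]
  have h2 : (jacobiSym (-(k.val : ℤ)) m : ℂ) = jc m (-1) * jc m k := by
    rw [← map_mul, neg_one_mul, ← h1, jc_int]
  rw [h2] at h
  rw [ZMod.dft_apply]
  have h3 : ∑ j : ZMod m, ZMod.stdAddChar (-(j * k)) • jc m j = T m (-(k.val : ℤ)) := by
    unfold T
    refine sum_congr rfl fun j _ => ?_
    rw [smul_eq_mul, mul_comm, jc_apply]
    congr 2
    push_cast
    rw [ZMod.natCast_zmod_val, ZMod.natCast_zmod_val]
    ring
  rw [h3, h]
  ring

theorem L_mul {m : ℕ} [NeZero m] (h3 : m % 4 = 3) (hsf : Squarefree m) :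
    DirichletCharacter.LFunction (jc m) 1 * ((m : ℂ) * (Real.sqrt m : ℂ)) =
      - π * ∑ j : ZMod m, jc m j * (j.val : ℂ) := by
  have hodd : Odd m := by rw [Nat.odd_iff]; omega
  have hm1 : 1 < m := by omega
  haveI : Fact (1 < m) := ⟨hm1⟩
  have hjc0 : jc m 0 = 0 := MulChar.map_zero _
  have hneg := jc_neg_one h3
  have hoddj : ∀ j : ZMod m, jc m (-j) = - jc m j := fun j => by
    rw [← neg_one_mul, map_mul, hneg, neg_one_mul]
  set L := DirichletCharacter.LFunction (jc m) 1 with hL
  set τ : ℂ := eps m * (Real.sqrt m : ℂ) with hτ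
  have h0 : (fun j : ZMod m => jc m j) 0 = 0 := hjc0
  have hLF := ZMod.LFunction_dft (fun j => jc m j) (s := 1) (Or.inl h0)
  have h1 : ZMod.dft (fun j => jc m j) = fun k => (-1) * τ * jc m k := by
    funext k
    rw [dft_jc hodd hsf k, hneg]
  rw [h1] at hLF
  have h2 : ZMod.LFunction (fun k : ZMod m => (-1) * τ * jc m k) 1 = (-1) * τ * L := by
    rw [hL]
    unfold DirichletCharacter.LFunction ZMod.LFunction
    simp only [mul_sum]
    refine sum_congr rfl fun j _ => ?_
    ring
  have h4 : ∑ j : ZMod m, jc m j * expZeta (ZMod.toAddCircle (-j)) 1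
      = - ∑ j : ZMod m, jc m j * expZeta (ZMod.toAddCircle j) 1 := by
    rw [← Equiv.sum_comp (Equiv.neg (ZMod m)), ← sum_neg_distrib]
    refine sum_congr rfl fun j _ => ?_
    simp only [Equiv.neg_apply, neg_neg]
    rw [hoddj]
    ring
  have hA : τ * L = ∑ j : ZMod m, jc m j * expZeta (ZMod.toAddCircle j) 1 := by
    rw [h2, h4] at hLF
    linear_combination -hLF
  have h5 : 2 * (τ * L) = 2 * I * ∑ j : ZMod m, jc m j * sinZeta (ZMod.toAddCircle j) 1 := by
    have h6 : 2 * (τ * L) = ∑ j : ZMod m, jc m j * expZeta (ZMod.toAddCircle j) 1 -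
        ∑ j : ZMod m, jc m j * expZeta (ZMod.toAddCircle (-j)) 1 := by
      rw [h4, ← hA]
      ring
    rw [h6, ← sum_sub_distrib, mul_sum]
    refine sum_congr rfl fun j _ => ?_
    rw [sinZeta_eq, map_neg]
    have hI : (2 : ℂ) * I ≠ 0 := by simp
    field_simp
  have hmc : (m : ℂ) ≠ 0 := by exact_mod_cast NeZero.ne m
  have h7 : ∑ j : ZMod m, jc m j * sinZeta (ZMod.toAddCircle j) 1
      = - (π / m) * ∑ j : ZMod m, jc m j * (j.val : ℂ) := by
    have hsum : ∑ j : ZMod m, jc m j = 0 := by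
      have h8 : ∑ j : ZMod m, jc m j = - ∑ j : ZMod m, jc m j := by
        conv_lhs => rw [← Equiv.sum_comp (Equiv.neg (ZMod m))]
        rw [← sum_neg_distrib]
        refine sum_congr rfl fun j _ => ?_
        simp only [Equiv.neg_apply]
        exact hoddj j
      have h9 : (2 : ℂ) * ∑ j : ZMod m, jc m j = 0 := by linear_combination h8
      simpa using h9
    have h5 : ∀ j : ZMod m, jc m j * sinZeta (ZMod.toAddCircle j) 1
        = - (π / m) * (jc m j * (j.val : ℂ)) + (π / 2) * jc m j := by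
      intro j
      rw [Pool.Agent.H916R2.sinZeta_toAddCircle]
      by_cases hj : j = 0
      · rw [hj, hjc0]; ring
      · unfold Pool.Agent.H916R2.saw
        rw [if_neg hj]
        push_cast
        field_simp
        ring
    rw [Finset.sum_congr rfl (fun j _ => h5 j), Finset.sum_add_distrib, ← Finset.mul_sum,
      ← Finset.mul_sum, hsum]
    ring
  have ht : τ = (Real.sqrt m : ℂ) * I := by
    rw [hτ]
    unfold eps
    rw [if_neg (by omega), mul_comm]
  rw [h7, ht] at h5
  have hI : (2 * I : ℂ) ≠ 0 := by simp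
  apply mul_left_cancel₀ hI
  have e : (m : ℂ) * (π / m) = π := by field_simp
  linear_combination (m : ℂ) * h5 + (-2 * I * ∑ j : ZMod m, jc m j * (j.val : ℂ)) * e

/-- the closed set of the nonnegative real numbers inside `ℂ` -/
def NN : Set ℂ := {z | 0 ≤ z.re ∧ z.im = 0}

lemma isClosed_NN : IsClosed NN := by
  apply IsClosed.inter
  · exact isClosed_le continuous_const Complex.continuous_re
  · exact isClosed_eq Complex.continuous_im continuous_const

lemma NN_ofReal {x : ℝ} (hx : 0 ≤ x) : (x : ℂ) ∈ NN := by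
  constructor
  · rw [Complex.ofReal_re]; exact hx
  · exact Complex.ofReal_im x

lemma exists_of_NN {z : ℂ} (hz : z ∈ NN) : ∃ x : ℝ, 0 ≤ x ∧ z = x :=
  ⟨z.re, hz.1, by
    apply Complex.ext
    · simp
    · rw [hz.2, Complex.ofReal_im]⟩

lemma NN_prod {ι : Type*} (s : Finset ι) (f : ι → ℂ) (hf : ∀ i ∈ s, f i ∈ NN) :
    ∏ i ∈ s, f i ∈ NN := by
  classical
  induction s using Finset.induction_on with
  | empty =>
    rw [prod_empty]
    exact_mod_cast NN_ofReal (x := 1) (by norm_num)
  | insert a s ha ih =>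
    rw [prod_insert ha]
    obtain ⟨x, hx, hx'⟩ := exists_of_NN (hf a (mem_insert_self _ _))
    obtain ⟨y, hy, hy'⟩ := exists_of_NN (ih (fun i hi => hf i (mem_insert_of_mem hi)))
    rw [hx', hy', ← Complex.ofReal_mul]
    exact NN_ofReal (mul_nonneg hx hy)

lemma jac_cases (a : ℤ) (m : ℕ) : jacobiSym a m = 0 ∨ jacobiSym a m = 1 ∨ jacobiSym a m = -1 := by
  have := jacobiSym.trichotomy a m
  simpa using this

lemma L_NN {m : ℕ} [NeZero m] (s : ℝ) (hs : 1 < s) :
    DirichletCharacter.LFunction (jc m) (s : ℂ) ∈ NN := by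
  have hs' : 1 < (s : ℂ).re := by rw [Complex.ofReal_re]; exact hs
  rw [DirichletCharacter.LFunction_eq_LSeries _ hs']
  have h := DirichletCharacter.LSeries_eulerProduct_hasProd (jc m) hs'
  refine isClosed_NN.mem_of_tendsto h (Filter.Eventually.of_forall fun F => ?_)
  apply NN_prod
  intro p _
  have hp : (1 : ℝ) < ((p : ℕ) : ℝ) := by exact_mod_cast p.2.one_lt
  have hx : (((p : ℕ) : ℂ)) ^ (-(s : ℂ)) = ((((p : ℕ) : ℝ) ^ (-s) : ℝ) : ℂ) := by
    rw [Complex.ofReal_cpow (by linarith)]
    push_cast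
    rfl
  have hx1 : ((p : ℕ) : ℝ) ^ (-s) < 1 := Real.rpow_lt_one_of_one_lt_of_neg hp (by linarith)
  have hx0 : 0 ≤ ((p : ℕ) : ℝ) ^ (-s) := by positivity
  have hj : jc m ((p : ℕ) : ZMod m) = ((jacobiSym (p : ℕ) m : ℝ) : ℂ) := by
    rw [jc_nat]
    push_cast
    rfl
  rw [hj, hx, ← Complex.ofReal_mul, ← Complex.ofReal_one, ← Complex.ofReal_sub,
    ← Complex.ofReal_inv]
  apply NN_ofReal
  apply inv_nonneg.2
  rcases jac_cases (p : ℕ) m with h1 | h1 | h1 <;> rw [h1] <;> push_cast <;> linarith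

lemma L_one_NN {m : ℕ} [NeZero m] (h3 : m % 4 = 3) :
    DirichletCharacter.LFunction (jc m) 1 ∈ NN := by
  have hne : jc m ≠ 1 := by
    intro h
    have h1 := jc_neg_one h3
    rw [h, MulChar.one_apply (by simp : IsUnit (-1 : ZMod m))] at h1
    norm_num at h1
  have hc : Continuous (DirichletCharacter.LFunction (jc m)) :=
    (DirichletCharacter.differentiable_LFunction hne).continuous
  have h1 : Filter.Tendsto (fun s : ℝ => DirichletCharacter.LFunction (jc m) (s : ℂ)) (𝓝[>] 1)
      (𝓝 (DirichletCharacter.LFunction (jc m) ((1 : ℝ) : ℂ))) :=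
    ((hc.comp Complex.continuous_ofReal).tendsto 1).mono_left nhdsWithin_le_nhds
  rw [Complex.ofReal_one] at h1
  refine isClosed_NN.mem_of_tendsto h1 ?_
  filter_upwards [self_mem_nhdsWithin] with s hs
  exact L_NN s hs

end Pool.Agent.Q270.CJ
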